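import Pool.Agent.Helper39.T5.InRep
import Pool.Agent.Helper63.T5.SLNumInst
import Pool.Agent.Helper39.SL.Union
import Pool.Agent.Helper45.T5.RegWin
import Pool.Agent.Helper5.T5.Pair
import Pool.Agent.Helper83.T5.Leaf2

/-!
# T5a, block NEAR (pairs of states of one era with a common front): definitions

`t + 1` is the index of the finest common front (`t ≤ k`, front `ef m (t + 1) l`), `t` is the
number of the first static level below it in the numbering of `Helper11/T5/Defs`.
-/

set_option autoImplicit false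

namespace Pool.Agent.Helper22.NEAR

open Finset Pool.Agent.Helper27.T4 Pool.Agent.Helper27.T5 Pool.Agent.Helper22.HW
  Pool.Agent.Helper22.SL Pool.Agent.Helper57.T5 Pool.Agent.Helper11.T5 Pool.Agent.Helper63.T5
open Pool.Agent.Helper5.ET (Nj era)

/-- contexts: `α`, `E`, `κ₂`, `N` -/
abbrev Cx : Type := ℕ × ℕ × ℕ × ℕ

/-- the class map of a context -/
def clx (c : Cx) (i : ℕ) : ℕ := c.1 + c.2.1 * i

/-- modulus between the common front and the lower state -/
noncomputable def DD (m j t l' l : ℕ) : ℕ := pj j ^ (ef m (t + 1) l - l')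

/-- number of labels -/
noncomputable def In (j l' l : ℕ) : ℕ := pj j ^ ((l - l') / 2)

/-- the modulus of the lower state and of the static levels above the common front -/
noncomputable def bm (m j t l' : ℕ) : ℕ := Nj l' * LL (QQ m j) t

/-- the number of solutions of the local system of a pair of states in a context -/
noncomputable def cNx (m k j t l' l : ℕ) (w : Key → ℕ) (c : Cx) : ℕ :=
  Pool.Agent.Helper22.HW.cN (Zw m k l t w) (Zw m k l' t w) (In j l' l) (bm m j t l')
    (DD m j t l' l) (clx c) c.2.2.1 (bm m j t l' * c.2.2.2)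

/-- some local system of the pair has more than `R` solutions -/
def Bad (m k j t l' l : ℕ) (R : ℝ) (w : Key → ℕ) : Prop :=
  ∃ c : Cx, c.2.1.Coprime (pj j) ∧ c.2.2.1 < 4 ∧ R < cNx m k j t l' l w c

/-- a finite set of contexts -/
noncomputable def Jx (m j t l' l : ℕ) : Finset Cx :=
  (range (DD m j t l' l) ×ˢ (range (DD m j t l' l) ×ˢ
    (range 4 ×ˢ range ((10 ^ 6) ^ (3 * W m j (t + 1)))))).filter (fun c => c.2.1.Coprime (pj j))

/-- number of static levels used for the pair -/
noncomputable def hb (m k j t l' l : ℕ) : ℕ := hh m k j (t + 1) (l - l')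

/-- the pair as an instance of the static block -/
noncomputable def PN (m k j t l' l : ℕ) : Pr Key :=
  Pool.Agent.Helper55.T5.prD m l' l t (hb m k j t l' l) (FF m l t)

/-- index of the windows below the static levels of the pair -/
noncomputable def sb (m k j t l' l : ℕ) : ℕ := t + hb m k j t l' l

/-- number of the targets of a context -/
noncomputable def nTx (m k j t l' l : ℕ) (c : Cx) : ℕ :=
  Pool.Agent.Helper39.SL.nT (In j l' l) ((PN m k j t l' l).M' * (PN m k j t l' l).L0)
    (DD m j t l' l) c.2.2.1 (bm m j t l' * c.2.2.2) (clx c)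

/-- the targets of a context -/
noncomputable def XTx (m k j t l' l : ℕ) (c : Cx) : ℕ → ℕ :=
  Pool.Agent.Helper39.SL.XT (In j l' l) ((PN m k j t l' l).M' * (PN m k j t l' l).L0)
    (DD m j t l' l) c.2.2.1 (bm m j t l' * c.2.2.2) (clx c)

/-- the number `PP * A * pc` of the windows of a pair in a context -/
noncomputable def PPx (m k j t l' l : ℕ) (w : Key → ℕ) (c : Cx) : ℝ :=
  PP (PN m k j t l' l) (nTx m k j t l' l c) (XTx m k j t l' l c)
    (Bw m k l (sb m k j t l' l) w) (Bw m k l' (sb m k j t l' l) w) *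
      (PN m k j t l' l).A (PN m k j t l' l).h * (PN m k j t l' l).pc (PN m k j t l' l).h

/-- one-sided regularity of the windows of the state `l` below the static level `s` -/
def RegE (m k j l s : ℕ) (w : Key → ℕ) : Prop :=
  ∃ Q : ℕ, (∀ n, (pj j ^ n).Coprime Q) ∧
    Pool.Agent.Helper45.T5.RegSet (Bw m k l s w) Q (Real.exp ((W m j (s + 1) : ℝ) / 10000))
      (Real.exp ((W m j (s + 1) : ℝ) * lam / 2 - (W m j (s + 1) : ℝ) / 10000))

/-- more than `R` pairs of window elements with a given sum -/
def VBad (m k l' l : ℕ) (R : ℝ) (w : Key → ℕ) : Prop :=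
  ∃ n, R < (((Vw m k l w ×ˢ Vw m k l' w).filter (fun q =>
      Nj l * LA m k (era l) * q.1 + Nj l' * LA m k (era l) * q.2 = n)).card : ℝ)

/-- a bound for the pairs of base level `t + 1 ≤ k` with the property `Q`, exponent `E / m` -/
def MidB (k : ℕ) (Q : ℕ → ℕ → ℕ → ℕ → Prop) (E : ℕ) : Prop :=
  ∃ (C1 c0 m' : ℝ) (K0 : ℕ), 0 ≤ C1 ∧ 0 < c0 ∧ 0 ≤ m' ∧
    ∀ j t l' l, K0 ≤ l' → PD (k + 2) k j (t + 1) l' l →
      ef (k + 2) (t + 1) l' = ef (k + 2) (t + 1) l → Q j t l' l →
      ∀ K, keysOf (k + 2) k l ⊆ K → keysOf (k + 2) k l' ⊆ K →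
        PrG (Mk (k + 2)) K
          (Bad (k + 2) k j t l' l (C1 * (l : ℝ) ^ ((E : ℝ) / ((k + 2 : ℕ) : ℝ))))
          (m' * Real.exp (-((l : ℝ) ^ c0)))

/-- the deeper windows are treated by regularity -/
def CaseReg (k j t l' l : ℕ) : Prop :=
  7 * W (k + 2) j (sb (k + 2) k j t l' l + 1) ≤ 20 * (l - l')

/-- the deeper windows are the random windows, and they are longer than the distance -/
def CaseBot (c k j t l' l : ℕ) : Prop :=
  sb (k + 2) k j t l' l = k ∧ 20 * (l - l') < 7 * W (k + 2) j (k + 1) ∧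
    la j / (k + 2) + c ≤ l - l'

/-- few labels -/
def CaseSmall (c k j _t l' l : ℕ) : Prop := l - l' < la j / (k + 2) + c

/-- the number `ρ = exp (-δ)` of the case of regular windows -/
noncomputable def dReg (k j t l' l : ℕ) : ℝ :=
  (W (k + 2) j (sb (k + 2) k j t l' l + 1) : ℝ) / 200

/-- bound for the number of pairs of elements of the random windows with a given sum -/
noncomputable def RV (k l : ℕ) (CV : ℝ) : ℕ := ⌊CV * (l : ℝ) ^ ((1 : ℝ) / ((k + 2 : ℕ) : ℝ))⌋₊

end Pool.Agent.Helper22.NEAR
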