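import Pool.Agent.Helper22.NEAR.NearR
import Pool.Agent.Helper50.T5.BadCtx
import Pool.Agent.Helper57.T5.NE8
import Pool.Agent.Helper75.T5.CardJx
import Pool.Agent.Helper39.T5.SlInst
import Pool.Agent.Helper45.T5.RegAll
import Pool.Agent.Helper87.NEAR.PP
import Pool.Agent.Helper63.T5.NE
import Pool.Agent.Helper2.T5.NE

/-!
# T5a, block NEAR: assembly
-/

set_option autoImplicit false

namespace Pool.Agent.Helper22.NEAR

open Finset Pool.Agent.Helper27.T4 Pool.Agent.Helper27.T5 Pool.Agent.Helper22.HW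
  Pool.Agent.Helper22.SL Pool.Agent.Helper57.T5 Pool.Agent.Helper11.T5 Pool.Agent.Helper63.T5
  Pool.Agent.Helper39.T5
open Pool.Agent.Helper5.ET (Nj era pr bb)

/-- the two forms of the probability agree -/
theorem PrG_iff_PrLe {κ : Type*} [DecidableEq κ] {M : κ → ℕ} {K : Finset κ}
    {B : (κ → ℕ) → Prop} {ε : ℝ} :
    PrG M K B ε ↔ Pool.Agent.Helper42.T5.Pr.PrLe M K B ε := Iff.rfl

/-- late positions lie in late eras -/
theorem le_era_of_le {j0 l : ℕ} (h : bb j0 ≤ l) : j0 ≤ era l := by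
  unfold era
  refine Nat.le_findGreatest ?_ h
  exact (Pool.Agent.Helper27.T4.le_bb j0).trans h

theorem MidB.mono {k E E' : ℕ} {Q Q' : ℕ → ℕ → ℕ → ℕ → Prop} (h : MidB k Q E) (hE : E ≤ E')
    (hQ : ∀ j t l' l, Q' j t l' l → Q j t l' l) : MidB k Q' E' := by
  obtain ⟨C1, c0, m', K0, h1, h2, h3, h⟩ := h
  refine ⟨C1, c0, m', K0 + 1, h1, h2, h3, ?_⟩
  intro j t l' l hl' hPD hc hq K hK hK'
  refine PrG_mono (fun w _ hw => ?_) le_rfl (h j t l' l (by omega) hPD hc (hQ _ _ _ _ hq) K hK hK')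
  obtain ⟨c, hc1, hc2, hc3⟩ := hw
  refine ⟨c, hc1, hc2, lt_of_le_of_lt (mul_le_mul_of_nonneg_left ?_ h1) hc3⟩
  refine Real.rpow_le_rpow_of_exponent_le ?_ ?_
  · have := hPD.lt
    exact_mod_cast (show 1 ≤ l by omega)
  · exact div_le_div_of_nonneg_right (by exact_mod_cast hE) (Nat.cast_nonneg _)

theorem MidB.or {k E : ℕ} {Q Q' : ℕ → ℕ → ℕ → ℕ → Prop} (h : MidB k Q E) (h' : MidB k Q' E) :
    MidB k (fun j t l' l => Q j t l' l ∨ Q' j t l' l) E := by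
  obtain ⟨C1, c0, m1, K0, h1, h2, h3, h⟩ := h
  obtain ⟨C1', c0', m1', K0', h1', h2', h3', h'⟩ := h'
  refine ⟨max C1 C1', min c0 c0', max m1 m1', max K0 K0' + 1, le_max_of_le_left h1,
    lt_min h2 h2', le_max_of_le_left h3, ?_⟩
  intro j t l' l hl' hPD hc hq K hK hK'
  have hlt := hPD.lt
  have hl1 : (1 : ℝ) ≤ (l : ℝ) := by exact_mod_cast (show 1 ≤ l by omega)
  have hr : 0 ≤ (l : ℝ) ^ ((E : ℝ) / ((k + 2 : ℕ) : ℝ)) := Real.rpow_nonneg (Nat.cast_nonneg _) _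
  have e1 : K0 ≤ max K0 K0' := le_max_left _ _
  have e2 : K0' ≤ max K0 K0' := le_max_right _ _
  rcases hq with hq | hq
  · refine PrG_mono (fun w _ hw => ?_) ?_ (h j t l' l (by omega) hPD hc hq K hK hK')
    · obtain ⟨c, hc1, hc2, hc3⟩ := hw
      exact ⟨c, hc1, hc2, lt_of_le_of_lt (mul_le_mul_of_nonneg_right (le_max_left _ _) hr) hc3⟩
    · refine mul_le_mul (le_max_left _ _) (Real.exp_le_exp.2 (neg_le_neg ?_))
        (Real.exp_pos _).le (le_max_of_le_left h3)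
      exact Real.rpow_le_rpow_of_exponent_le hl1 (min_le_left _ _)
  · refine PrG_mono (fun w _ hw => ?_) ?_ (h' j t l' l (by omega) hPD hc hq K hK hK')
    · obtain ⟨c, hc1, hc2, hc3⟩ := hw
      exact ⟨c, hc1, hc2, lt_of_le_of_lt (mul_le_mul_of_nonneg_right (le_max_right _ _) hr) hc3⟩
    · refine mul_le_mul (le_max_right _ _) (Real.exp_le_exp.2 (neg_le_neg ?_))
        (Real.exp_pos _).le (le_max_of_le_left h3)
      exact Real.rpow_le_rpow_of_exponent_le hl1 (min_le_right _ _)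

/-! ## dependence on the deep keys -/

theorem regE_congr {m k j l s : ℕ} {w w' : Key → ℕ} (h : Bw m k l s w = Bw m k l s w') :
    RegE m k j l s w ↔ RegE m k j l s w' := by
  unfold RegE
  rw [h]

theorem vbad_congr {m k l' l s : ℕ} {R : ℝ} {w w' : Key → ℕ}
    (h : ∀ q ∈ deep m k l l' s, w q = w' q) : VBad m k l' l R w ↔ VBad m k l' l R w' := by
  have e1 : Vw m k l w = Vw m k l w' :=
    Pool.Agent.Helper39.T5.Vw_congr s (fun q hq => h q (mem_union_left _ hq))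
  have e2 : Vw m k l' w = Vw m k l' w' :=
    Pool.Agent.Helper39.T5.Vw_congr s (fun q hq => h q (mem_union_right _ hq))
  unfold VBad
  rw [e1, e2]

/-- transfer of an event of the deep keys -/
theorem to_deep {m k l l' s : ℕ} {K : Finset Key} (hK : keysOf m k l ⊆ K)
    (hK' : keysOf m k l' ⊆ K) {A : (Key → ℕ) → Prop} {ε : ℝ}
    (hA : ∀ w w' : Key → ℕ, (∀ q ∈ deep m k l l' s, w q = w' q) → (A w ↔ A w'))
    (h : PrG (Mk m) K A ε) : PrG (Mk m) (deep m k l l' s) A ε := by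
  rw [PrG_iff_PrLe] at h ⊢
  exact (Pool.Agent.Helper42.T5.Pr.PrLe_dep_iff (fun q => Mk_pos m q) (deep_sub hK hK') hA).1 h

/-! ## the general step -/

theorem sb_le {m k j t l' l : ℕ} (h : PD m k j (t + 1) l' l) : sb m k j t l' l ≤ k := by
  have := hh_le (m := m) (j := j) (D := l - l') h.ak
  unfold sb hb
  omega

/-- from the windows to the bound of the pair -/
theorem case_gen {k : ℕ} : ∃ j0 : ℕ, ∀ j t l' l, j0 ≤ j → PD (k + 2) k j (t + 1) l' l →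
    ef (k + 2) (t + 1) l' = ef (k + 2) (t + 1) l → ∀ K : Finset Key,
    keysOf (k + 2) k l ⊆ K → keysOf (k + 2) k l' ⊆ K → ∀ (n : ℕ) (δ ε X : ℝ) (R0 : ℕ)
    (A : (Key → ℕ) → Prop), 1 ≤ n → δ ≤ W (k + 2) j (sb (k + 2) k j t l' l + 1) →
    42 * (W (k + 2) j (t + 1) : ℝ) + 3 + X + 90 * W (k + 2) j (t + 1) ≤ (n + 1 : ℕ) * δ →
    (∀ w w' : Key → ℕ, (∀ q ∈ deep (k + 2) k l l' (sb (k + 2) k j t l' l), w q = w' q) →
      (A w ↔ A w')) → PrG (Mk (k + 2)) K A ε →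
    (∀ w : Key → ℕ, (∀ q, w q < Mk (k + 2) q) → ¬ A w →
      (∀ c ∈ Jx (k + 2) j t l' l, PPx (k + 2) k j t l' l w c ≤ Real.exp (-δ)) ∧
      ∀ n, ((Vw (k + 2) k l w ×ˢ Vw (k + 2) k l' w).filter (fun q =>
        Nj l * LA (k + 2) k (era l) * q.1 + Nj l' * LA (k + 2) k (era l) * q.2 = n)).card ≤ R0) →
    PrG (Mk (k + 2)) K (Bad (k + 2) k j t l' l
      ((2 * ((n + 1) ^ 2 ^ (4 * hb (k + 2) k j t l' l) *
        (Pool.Agent.Helper39.SL.Cd (PN (k + 2) k j t l' l) *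
          (Pool.Agent.Helper83.T5.CL k * R0))) : ℕ) : ℝ)) (ε + Real.exp (-X)) := by
  obtain ⟨j1, h1⟩ := exists_lateC (k + 2) k le_rfl (cA k 3)
  obtain ⟨j2, h2⟩ := Pool.Agent.Helper50.T5.bad_ctx k
  refine ⟨max j1 j2, ?_⟩
  intro j t l' l hj h hc K hK hK' n δ ε X R0 A hn hδ hX hdep hA hgood
  have hj1 : j1 ≤ j := le_trans (le_max_left _ _) hj
  have hj2 : j2 ≤ j := le_trans (le_max_right _ _) hj
  have hel := h.el
  have hel' := h.el'
  have hbig : 10 * (k + 2) ≤ la (era l) := by rw [hel]; exact h.big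
  have hee : era l' = era l := by rw [hel, hel']
  have key := Pool.Agent.Helper39.T5.sl_inst (m := k + 2) (k := k) (R0 := Pool.Agent.Helper83.T5.CL k * R0) h hc
    (h1 j hj1) hK hK' hn hδ (to_deep hK hK' hdep hA) (fun w hw hAw => by
      obtain ⟨g1, g2⟩ := hgood w hw hAw
      refine ⟨g1, fun n => ?_⟩
      exact Pool.Agent.Helper83.T5.leaf_Zw' hee (sb_le h) w g2 n)
  refine PrG_mono (fun r _ hw => ?_) ?_ key
  · obtain ⟨c, hc1, hc2⟩ := h2 j t l' l hj2 h _ _ (Nat.cast_nonneg _) hw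
    exact ⟨c, hc1, Nat.cast_lt.1 hc2⟩
  · refine add_le_add le_rfl ?_
    have h3 := h.hh_le_three
    exact fail_num (h0 := hb (k + 2) k j t l' l) h3 (Pool.Agent.Helper75.T5.card_Jx h) hX

/-- the pairs of a case from the probability that the windows are bad -/
theorem mid_of {k E : ℕ} {Q : ℕ → ℕ → ℕ → ℕ → Prop} {δ : ℕ → ℕ → ℕ → ℕ → ℝ}
    (hδ : ∀ j t l' l, PD (k + 2) k j (t + 1) l' l → Q j t l' l →
      δ j t l' l ≤ W (k + 2) j (sb (k + 2) k j t l' l + 1))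
    (hnum : ∀ CV, 0 ≤ CV → ∃ (C1 : ℝ) (K0 : ℕ), 0 ≤ C1 ∧
      ∀ j t l' l, K0 ≤ l' → PD (k + 2) k j (t + 1) l' l → Q j t l' l → ∃ n : ℕ, 1 ≤ n ∧
        42 * (W (k + 2) j (t + 1) : ℝ) + 3 + W (k + 2) j (k + 1) + 90 * W (k + 2) j (t + 1) ≤
          (n + 1 : ℕ) * δ j t l' l ∧
        ((2 * ((n + 1) ^ 2 ^ (4 * hb (k + 2) k j t l' l) *
          (Pool.Agent.Helper39.SL.Cd (PN (k + 2) k j t l' l) *
            (Pool.Agent.Helper83.T5.CL k * RV k l CV))) : ℕ) : ℝ) ≤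
          C1 * (l : ℝ) ^ ((E : ℝ) / ((k + 2 : ℕ) : ℝ)))
    (hP : ∃ (j0 : ℕ) (b : ℝ), 0 ≤ b ∧ ∀ j t l' l, j0 ≤ j → PD (k + 2) k j (t + 1) l' l →
      ef (k + 2) (t + 1) l' = ef (k + 2) (t + 1) l → Q j t l' l → ∀ K,
      keysOf (k + 2) k l ⊆ K → keysOf (k + 2) k l' ⊆ K →
      PrG (Mk (k + 2)) K (fun w => ∃ c ∈ Jx (k + 2) j t l' l,
        Real.exp (-(δ j t l' l)) < PPx (k + 2) k j t l' l w c)
        (b * Real.exp (-(W (k + 2) j (k + 1) : ℝ)))) : MidB k Q E := by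
  obtain ⟨CV, c0, m', K0, hCV, hc0, hm', hv⟩ := Pool.Agent.Helper57.T5.vbad k
  obtain ⟨C1, K1, hC1, hn⟩ := hnum CV hCV
  obtain ⟨j0, b, hb0, hp⟩ := hP
  obtain ⟨c1, K2, hc1, hW⟩ := Pool.Agent.Helper2.T5.W_ge_pow k
  obtain ⟨j1, hgen⟩ := case_gen (k := k)
  refine ⟨C1, min c0 c1, m' + b + 1, K0 + K1 + K2 + bb (max j0 j1) + 1, hC1, lt_min hc0 hc1,
    by positivity, ?_⟩
  intro j t l' l hl' hPD hc hq K hK hK'
  have hel := hPD.el
  have hel' := hPD.el'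
  have hlt := hPD.lt
  have hj : max j0 j1 ≤ j := by
    rw [← hel']
    exact le_era_of_le (by omega)
  have hj0 : j0 ≤ j := le_trans (le_max_left _ _) hj
  have hj1 : j1 ≤ j := le_trans (le_max_right _ _) hj
  obtain ⟨n, hn1, hn2, hn3⟩ := hn j t l' l (by omega) hPD hq
  have hee : era l' = era l := by rw [hel, hel']
  have hvv := hv l' l (by omega) hee hPD.u hPD.u' hlt.le K hK hK'
  have hpp := hp j t l' l hj0 hPD hc hq K hK hK'
  have hl1 : (1 : ℝ) ≤ (l : ℝ) := by exact_mod_cast (show 1 ≤ l by omega)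
  have hWW : (l : ℝ) ^ c1 ≤ W (k + 2) j (k + 1) := by
    have := hW l (by omega) hPD.u
    rwa [hel] at this
  -- the bad event of the windows
  have hdep : ∀ w w' : Key → ℕ, (∀ q ∈ deep (k + 2) k l l' (sb (k + 2) k j t l' l), w q = w' q) →
      (((∃ c ∈ Jx (k + 2) j t l' l, Real.exp (-(δ j t l' l)) < PPx (k + 2) k j t l' l w c) ∨
        VBad (k + 2) k l' l (CV * (l : ℝ) ^ ((1 : ℝ) / ((k + 2 : ℕ) : ℝ))) w) ↔
      ((∃ c ∈ Jx (k + 2) j t l' l, Real.exp (-(δ j t l' l)) < PPx (k + 2) k j t l' l w' c) ∨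
        VBad (k + 2) k l' l (CV * (l : ℝ) ^ ((1 : ℝ) / ((k + 2 : ℕ) : ℝ))) w')) := by
    intro w w' hww
    obtain ⟨e1, e2⟩ := Bw_congr_deep hww
    have e3 : ∀ c, PPx (k + 2) k j t l' l w c = PPx (k + 2) k j t l' l w' c := by
      intro c
      unfold PPx
      rw [e1, e2]
    rw [vbad_congr hww]
    simp only [e3]
  have key := hgen j t l' l hj1 hPD hc K hK hK' n (δ j t l' l) _ (W (k + 2) j (k + 1))
    (RV k l CV) _ hn1 (hδ j t l' l hPD hq) hn2 hdep (PrG_or hpp hvv) (fun w hw hA => by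
      rw [not_or] at hA
      refine ⟨fun c hcJ => ?_, fun n => ?_⟩
      · by_contra hlt
        exact hA.1 ⟨c, hcJ, not_le.1 hlt⟩
      · unfold RV
        refine Nat.le_floor ?_
        by_contra hlt
        exact hA.2 ⟨n, not_le.1 hlt⟩)
  refine PrG_mono (fun r _ hw => ?_) ?_ key
  · obtain ⟨c, hc1, hc2, hc3⟩ := hw
    exact ⟨c, hc1, hc2, lt_of_le_of_lt hn3 hc3⟩
  · have e1 : Real.exp (-(W (k + 2) j (k + 1) : ℝ)) ≤ Real.exp (-((l : ℝ) ^ min c0 c1)) := by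
      refine Real.exp_le_exp.2 (neg_le_neg (le_trans ?_ hWW))
      exact Real.rpow_le_rpow_of_exponent_le hl1 (min_le_right _ _)
    have e2 : Real.exp (-((l : ℝ) ^ c0)) ≤ Real.exp (-((l : ℝ) ^ min c0 c1)) := by
      refine Real.exp_le_exp.2 (neg_le_neg ?_)
      exact Real.rpow_le_rpow_of_exponent_le hl1 (min_le_left _ _)
    have e3 := mul_le_mul_of_nonneg_left e1 hb0
    have e4 := mul_le_mul_of_nonneg_left e2 hm'
    linarith

/-- **regular windows** -/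
theorem case_reg : ∃ E : ℕ, ∀ k, MidB k (fun j t l' l => CaseReg k j t l' l) E := by
  obtain ⟨E, hE⟩ := Pool.Agent.Helper63.T5.num_reg
  refine ⟨E, fun k => mid_of (δ := fun j t l' l => dReg k j t l' l) ?_ (hE k) ?_⟩
  · intro j t l' l _ _
    unfold dReg
    have : (0 : ℝ) ≤ W (k + 2) j (sb (k + 2) k j t l' l + 1) := Nat.cast_nonneg _
    linarith
  · obtain ⟨j1, h1⟩ := Pool.Agent.Helper45.T5.reg_all k
    obtain ⟨j2, h2⟩ := Pool.Agent.Helper87.NEAR.pp_reg k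
    refine ⟨max j1 j2, 2, by norm_num, ?_⟩
    intro j t l' l hj h hc hq K hK hK'
    have hj1 : j1 ≤ j := le_trans (le_max_left _ _) hj
    have hj2 : j2 ≤ j := le_trans (le_max_right _ _) hj
    have hs := sb_le h
    have r1 := h1 j l _ hj1 h.el h.u hs K hK
    have r2 := h1 j l' _ hj1 h.el' h.u' hs K hK'
    refine PrG_mono (fun r _ hw => ?_) ?_ (PrG_or r1 r2)
    · by_contra hcon
      rw [not_or, not_not, not_not] at hcon
      obtain ⟨c, hcJ, hlt⟩ := hw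
      exact absurd (h2 j t l' l hj2 h hc hq _ hcon.1 hcon.2 c hcJ) (not_le.2 hlt)
    · have e1 : (W (k + 2) j (k + 1) : ℝ) ≤ W (k + 2) j (sb (k + 2) k j t l' l + 1) := by
        exact_mod_cast W_anti (m := k + 2) (j := j) (by omega)
      have e2 := Real.exp_le_exp.2 (neg_le_neg e1)
      linarith

/-- the statement `hL` for the random windows and small distances -/
def PpBot (k : ℕ) : Prop := ∃ j0 c0 : ℕ, ∀ j t l' l, j0 ≤ j → PD (k + 2) k j (t + 1) l' l →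
    ef (k + 2) (t + 1) l' = ef (k + 2) (t + 1) l → CaseBot c0 k j t l' l → ∀ K,
    keysOf (k + 2) k l ⊆ K → keysOf (k + 2) k l' ⊆ K →
    PrG (Mk (k + 2)) K (fun w => ∃ c ∈ Jx (k + 2) j t l' l,
      Real.exp (-1) < PPx (k + 2) k j t l' l w c)
      (Real.exp (-(W (k + 2) j (k + 1) : ℝ)))

/-- **random windows** -/
theorem case_bot (hpp : ∀ k, PpBot k) :
    ∃ E : ℕ, ∀ k, ∃ c : ℕ, MidB k (fun j t l' l => CaseBot c k j t l' l) E := by
  obtain ⟨E, hE⟩ := Pool.Agent.Helper63.T5.num_bot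
  refine ⟨E, fun k => ?_⟩
  obtain ⟨j0, c, h0⟩ := hpp k
  refine ⟨c, mid_of (δ := fun _ _ _ _ => 1) ?_ ?_ ⟨j0, 1, by norm_num, ?_⟩⟩
  · intro j t l' l _ _
    exact_mod_cast W_pos (k + 2) j _
  · intro CV hCV
    obtain ⟨C1, K0, hC1, h⟩ := hE k c CV hCV
    refine ⟨C1, K0, hC1, fun j t l' l hl' hPD hq => ?_⟩
    obtain ⟨n, h1, h2, h3⟩ := h j t l' l hl' hPD hq
    exact ⟨n, h1, by rw [mul_one]; exact h2, h3⟩
  · intro j t l' l hj h hc hq K hK hK'
    rw [one_mul]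
    exact h0 j t l' l hj h hc hq K hK hK'

/-- the number of solutions of a local system is at most the number of labels times the leaf -/
theorem cN_le_leaf {U U' : Finset ℕ} {I m D κ n R : ℕ} {cl : ℕ → ℕ}
    (h : ∀ x, ((U ×ˢ U').filter (fun q => q.1 + q.2 = x)).card ≤ R) :
    Pool.Agent.Helper22.HW.cN U U' I m D cl κ n ≤ I * R := by
  classical
  unfold Pool.Agent.Helper22.HW.cN
  have h1 : ((range I ×ˢ (U ×ˢ U')).filter
      (fun t => t.2.1 + t.2.2 + m * ((cl t.1) % D + κ * D) = n)) ⊆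
      (range I).biUnion (fun i => ((U ×ˢ U').filter
        (fun q => q.1 + q.2 = n - m * ((cl i) % D + κ * D))).image (fun q => (i, q))) := by
    rintro ⟨i, q⟩ hq
    rw [mem_filter, mem_product] at hq
    rw [mem_biUnion]
    refine ⟨i, hq.1.1, mem_image.2 ⟨q, mem_filter.2 ⟨hq.1.2, ?_⟩, rfl⟩⟩
    have := hq.2
    simp only at this
    omega
  refine (card_le_card h1).trans (card_biUnion_le.trans ?_)
  refine (Finset.sum_le_sum (g := fun _ => R) (fun i _ => card_image_le.trans (h _))).trans ?_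
  rw [sum_const, card_range, smul_eq_mul]

/-- **few labels** -/
theorem case_small : ∃ E : ℕ, ∀ k c, MidB k (fun j t l' l => CaseSmall c k j t l' l) E := by
  obtain ⟨E, hE⟩ := Pool.Agent.Helper2.T5.num_small
  refine ⟨E, fun k c => ?_⟩
  obtain ⟨CV, c0, m', K0, hCV, hc0, hm', hv⟩ := Pool.Agent.Helper57.T5.vbad k
  obtain ⟨C1, K1, hC1, hn⟩ := hE k c CV hCV
  refine ⟨C1, c0, m', K0 + K1, hC1, hc0, hm', ?_⟩
  intro j t l' l hl' hPD _ hq K hK hK'
  have hel := hPD.el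
  have hel' := hPD.el'
  have hee : era l' = era l := by rw [hel, hel']
  have hvv := hv l' l (by omega) hee hPD.u hPD.u' hPD.lt.le K hK hK'
  have h3 := hn j t l' l (by omega) hPD hq
  have hak := hPD.ak
  refine PrG_mono (fun r _ hw => ?_) le_rfl hvv
  by_contra hcon
  obtain ⟨c, _, _, hc3⟩ := hw
  have hR : ∀ n, ((Vw (k + 2) k l (ext K r) ×ˢ Vw (k + 2) k l' (ext K r)).filter (fun q =>
      Nj l * LA (k + 2) k (era l) * q.1 + Nj l' * LA (k + 2) k (era l) * q.2 = n)).card ≤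
        RV k l CV := by
    intro n
    unfold RV
    refine Nat.le_floor ?_
    by_contra hlt
    exact hcon ⟨n, not_le.1 hlt⟩
  have h5 : cNx (k + 2) k j t l' l (ext K r) c ≤
      In j l' l * (Pool.Agent.Helper83.T5.CL k * RV k l CV) :=
    cN_le_leaf (fun x => Pool.Agent.Helper83.T5.leaf_Zw' hee (by omega) _ hR x)
  have h6 : (cNx (k + 2) k j t l' l (ext K r) c : ℝ) ≤
      ((In j l' l * (Pool.Agent.Helper83.T5.CL k * RV k l CV) : ℕ) : ℝ) := Nat.cast_le.2 h5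
  linarith

/-- **all pairs with a common front which is not the last one** -/
theorem mid_all (hpp : ∀ k, PpBot k) : ∃ E : ℕ, ∀ k, MidB k (fun _ _ _ _ => True) E := by
  obtain ⟨E1, h1⟩ := case_reg
  obtain ⟨E2, h2⟩ := case_bot hpp
  obtain ⟨E3, h3⟩ := case_small
  refine ⟨max E1 (max E2 E3), fun k => ?_⟩
  obtain ⟨c, h2⟩ := h2 k
  have a1 := (h1 k).mono (E' := max E1 (max E2 E3)) (le_max_left _ _) (fun _ _ _ _ h => h)
  have a2 := h2.mono (E' := max E1 (max E2 E3)) ((le_max_left _ _).trans (le_max_right _ _))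
    (fun _ _ _ _ h => h)
  have a3 := (h3 k c).mono (E' := max E1 (max E2 E3)) ((le_max_right _ _).trans (le_max_right _ _))
    (fun _ _ _ _ h => h)
  obtain ⟨C1, c0, m', K0, x1, x2, x3, h⟩ := a1.or (a2.or a3)
  refine ⟨C1, c0, m', K0, x1, x2, x3, ?_⟩
  intro j t l' l hl' hPD hc _ K hK hK'
  refine h j t l' l hl' hPD hc ?_ K hK hK'
  have e1 := hh_spec (k + 2) k j (t + 1) (l - l')
  have e2 := hh_le (m := k + 2) (j := j) (D := l - l') hPD.ak
  have e3 : sb (k + 2) k j t l' l + 1 = t + 1 + hh (k + 2) k j (t + 1) (l - l') := by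
    unfold sb hb
    omega
  by_cases hr : CaseReg k j t l' l
  · exact Or.inl hr
  by_cases hs : CaseSmall c k j t l' l
  · exact Or.inr (Or.inr hs)
  refine Or.inr (Or.inl ?_)
  unfold CaseReg at hr
  unfold CaseSmall at hs
  rw [e3] at hr
  have e4 : k + 1 = t + 1 + hh (k + 2) k j (t + 1) (l - l') := by
    rcases e1 with e1 | e1
    · exact absurd e1 hr
    · omega
  refine ⟨by omega, ?_, not_lt.1 hs⟩
  rw [e4]
  exact not_le.1 hr

/-- **STATIC**, from the line `PpBot` -/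
theorem static_of (hpp : ∀ k, PpBot k) : Pool.Agent.Helper5.T5.StaticStmt := by
  obtain ⟨E, hE⟩ := mid_all hpp
  refine ⟨E, 0, fun k _ => ?_⟩
  obtain ⟨C1, c0, m', K0, h1, h2, h3, h⟩ := hE k
  obtain ⟨j0, hR⟩ := near_R k
  obtain ⟨j1, hb⟩ := Pool.Agent.Helper27.T5.exists_large (k + 2)
  refine ⟨K0 + bb (max j0 j1), CR k * C1, c0, m', by positivity, h2, h3, ?_⟩
  rintro l l' hl' hll hu hu' ⟨hee, hf1, hf2⟩ K hK hK'
  have hj : max j0 j1 ≤ era l := by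
    rw [← hee]
    exact le_era_of_le (by omega)
  have hj0 : j0 ≤ era l := le_trans (le_max_left _ _) hj
  have hj1 : j1 ≤ era l := le_trans (le_max_right _ _) hj
  have hbig := hb (era l) hj1
  have hPD := PD.of_fc (m := k + 2) (k := k) le_rfl hbig rfl hee hu hu' hll hf1 hf2
  obtain ⟨t, ht⟩ : ∃ t, fc (k + 2) k l' l = t + 1 := ⟨fc (k + 2) k l' l - 1, by omega⟩
  rw [ht] at hPD
  have hc : ef (k + 2) (t + 1) l' = ef (k + 2) (t + 1) l := by
    rw [← ht]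
    exact Pool.Agent.Helper37.T5.fc_common hf1
  have key := h (era l) t l' l (by omega) hPD hc trivial K hK hK'
  rw [← PrG_iff_PrLe]
  refine PrG_mono (fun r _ hw => ?_) le_rfl key
  obtain ⟨n, hn⟩ := hw
  by_contra hcon
  have hbound : ∀ c : Cx, c.2.1.Coprime (pj (era l)) → c.2.2.1 < 4 →
      cNx (k + 2) k (era l) t l' l (ext K r) c ≤
        ⌊C1 * (l : ℝ) ^ ((E : ℝ) / ((k + 2 : ℕ) : ℝ))⌋₊ := by
    intro c hc1 hc2
    refine Nat.le_floor ?_
    by_contra hlt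
    exact hcon ⟨c, hc1, hc2, not_le.1 hlt⟩
  have hRp := hR (era l) t l' l hj0 rfl hee hu hu' hll (by omega) hc _ _ hbound n
  have hx : 0 ≤ C1 * (l : ℝ) ^ ((E : ℝ) / ((k + 2 : ℕ) : ℝ)) :=
    mul_nonneg h1 (Real.rpow_nonneg (Nat.cast_nonneg _) _)
  have e1 : (Rp (k + 2) k l l' (ext K r) n : ℝ) ≤
      CR k * (C1 * (l : ℝ) ^ ((E : ℝ) / ((k + 2 : ℕ) : ℝ))) := by
    calc (Rp (k + 2) k l l' (ext K r) n : ℝ)
        ≤ ((CR k * ⌊C1 * (l : ℝ) ^ ((E : ℝ) / ((k + 2 : ℕ) : ℝ))⌋₊ : ℕ) : ℝ) := Nat.cast_le.2 hRp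
      _ = CR k * (⌊C1 * (l : ℝ) ^ ((E : ℝ) / ((k + 2 : ℕ) : ℝ))⌋₊ : ℝ) := Nat.cast_mul _ _
      _ ≤ _ := mul_le_mul_of_nonneg_left (Nat.floor_le hx) (Nat.cast_nonneg _)
  rw [mul_assoc] at hn
  exact absurd e1 (not_le.2 hn)

end Pool.Agent.Helper22.NEAR
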