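import Pool.Agent.Helper22.NEAR.Defs
import Pool.Agent.Helper57.T5.RInst
import Pool.Agent.Helper45.T5.RegNum

/-!
# T5a, block NEAR: reduction of a pair to the local systems of the common front
-/

set_option autoImplicit false

namespace Pool.Agent.Helper22.NEAR

open Finset Pool.Agent.Helper27.T4 Pool.Agent.Helper27.T5 Pool.Agent.Helper22.HW
  Pool.Agent.Helper22.SL Pool.Agent.Helper57.T5 Pool.Agent.Helper11.T5 Pool.Agent.Helper63.T5
  Pool.Agent.Helper39.T5
open Pool.Agent.Helper5.ET (Nj era pr)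

/-- the constant of the reduction -/
noncomputable def CR (k : ℕ) : ℕ := (∏ i, (2 * (pr i - 1))) *
      (((∏ i, (2 * (pr i - 1))) * ∏ s ∈ range k, ∏ i, (2 * (ps s i - 1))) * 4)

theorem two_ps_pos (s : ℕ) (i : Fin 3) : 1 ≤ 2 * (ps s i - 1) := by
  have := (ps_prime s i).two_le
  omega

theorem FF_of_double {m l t : ℕ}
    (h : 2 * (FF m l t * LL (QQ m (era l)) t) ≤ FF m l (t + 1) * LL (QQ m (era l)) (t + 1)) :
    2 * FF m l t ≤ FF m l (t + 1) * QQ m (era l) t := by
  rw [LL_succ] at h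
  have hp := LLQ_pos m (era l) t
  refine Nat.le_of_mul_le_mul_right (c := 1) ?_ one_pos |> fun h' => h'
  rw [mul_one, mul_one]
  refine Nat.le_of_mul_le_mul_left ?_ hp
  calc LL (QQ m (era l)) t * (2 * FF m l t) = 2 * (FF m l t * LL (QQ m (era l)) t) := by ring
    _ ≤ FF m l (t + 1) * (LL (QQ m (era l)) t * QQ m (era l) t) := h
    _ = LL (QQ m (era l)) t * (FF m l (t + 1) * QQ m (era l) t) := by ring

/-- NE1 -/
theorem near_R (k : ℕ) : ∃ (j0 : ℕ), ∀ j t l' l, j0 ≤ j → era l = j → era l' = j →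
    used (k + 2) l → used (k + 2) l' → l' ≤ l → t ≤ k →
    ef (k + 2) (t + 1) l' = ef (k + 2) (t + 1) l → ∀ (w : Key → ℕ) (R : ℕ),
    (∀ c : Cx, c.2.1.Coprime (pj j) → c.2.2.1 < 4 → cNx (k + 2) k j t l' l w c ≤ R) →
    ∀ n, Rp (k + 2) k l l' w n ≤ CR k * R := by
  obtain ⟨j1, h1⟩ := exists_cnt2
  obtain ⟨j2, h2⟩ := Pool.Agent.Helper45.T5.exists_double (k + 2) k le_rfl
  obtain ⟨j3, h3⟩ := exists_large (k + 2)
  refine ⟨max j1 (max j2 j3), ?_⟩
  intro j t l' l hj hel hel' hu hu' hl ht hfr w R hR n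
  subst hel
  have hj1 : j1 ≤ era l := le_trans (le_max_left _ _) hj
  have hj2 : j2 ≤ era l := le_trans ((le_max_left _ _).trans (le_max_right _ _)) hj
  have hj3 : j3 ≤ era l := le_trans ((le_max_right _ _).trans (le_max_right _ _)) hj
  have hb := h3 (era l) hj3
  have key := Pool.Agent.Helper57.T5.near_R (m := k + 2) (k := k) (t := t) (R := R)
    (I := In (era l) l' l) hb (by omega) ht hu hu' hl hel' hfr
    (close_of_common hb (by omega) hu hl hel' hfr)
    (h1 (k + 2) t l l' hj1 hb (by omega) hu hu' hl hel' hfr)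
    (fun s hs => FF_of_double (h2 l hj2 s (by omega)))
    (fun s hs => by
      have e := h2 l' (by rw [hel']; exact hj2) s (by omega)
      have e2 := FF_of_double e
      rw [hel'] at e2
      exact e2) w (le_refl _) n ?_
  · refine key.trans ?_
    unfold CR
    have e1 : ∏ s ∈ range t, ∏ i, (2 * (ps s i - 1)) ≤ ∏ s ∈ range k, ∏ i, (2 * (ps s i - 1)) := by
      refine Finset.prod_le_prod_of_subset_of_one_le' (range_subset_range.2 ht) ?_
      intro s _ _
      exact Finset.one_le_prod' (fun i _ => two_ps_pos s i)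
    calc (∏ i, (2 * (pr i - 1))) *
          (((∏ i, (2 * (pr i - 1))) * ∏ s ∈ range t, ∏ i, (2 * (ps s i - 1))) * (4 * R))
        ≤ (∏ i, (2 * (pr i - 1))) *
          (((∏ i, (2 * (pr i - 1))) * ∏ s ∈ range k, ∏ i, (2 * (ps s i - 1))) * (4 * R)) := by
          gcongr
      _ = _ := by ring
  · intro α E N hE κ₂ hκ
    have := hR (α, E, κ₂, N) hE hκ
    unfold cNx bm DD clx at this
    rw [LL_QQ] at this
    exact this

end Pool.Agent.Helper22.NEAR
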