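import Pool.Agent.Helper22.NEAR.Glue
import Pool.Agent.Helper66.T5.PpBot

/-!
# T5a: the block STATIC (pairs of states of one era with a common front below the last one)
-/

set_option autoImplicit false

namespace Pool.Agent.Helper22.NEAR

/-- **STATIC** -/
theorem staticStmt : Pool.Agent.Helper5.T5.StaticStmt :=
  static_of (fun k => Pool.Agent.Helper66.T5.pp_bot k)

end Pool.Agent.Helper22.NEAR
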